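import Pool.Agent.U881.HB.Star2
import Pool.Agent.W315.MD.Final

/-!
# Edge-colouring r-graphs without a Petersen-minus-vertex minor

* `MGraph r ends`: `r`-graphs, that is, loopless `r`-regular multigraphs on `Fin n` (edges `Fin m`) with
  at least `r` edges leaving every odd vertex set.
* `RGraph r p`: the same for the multiplicity function `p` of a multigraph; `gr p`: its underlying simple
  graph; `Cover 1 r p`: it is a union of `r` perfect matchings (class 1).
* `Minor H G`: `H` is a minor of `G`; `starG`: the Petersen graph minus a vertex.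
* `pent τ`: two disjoint pentagons `a₀ … a₄`, `b₀ … b₄` and the edges `aₖ b_{τ k}`, `k ≤ 3`.
* `Tame τ`: the permutation `τ` of `{0, 1, 2, 3}` preserves the partition `01 | 23` or `02 | 13`.  There are
  12 such permutations; for the other 12 the graph `pent τ` contains the Petersen graph minus a vertex.
* `Sum3 K` (sums of order at most three), `FourHubs`, `Piece`: see the hand-ins `SumsOfOrderThree` and
  `FourHubs` of `MP_2d6e82_co`; `Piece6`: no tame linked pentagons, or `FourHubs`, or `Piece`.
* `NoTight r p`: if `r` edges leave an odd set then it or its complement has one vertex; `Brick`: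
  deleting any two vertices leaves a connected graph with a perfect matching; `Sep3`: three vertices
  separate the graph into two parts with at least two vertices each.
-/

set_option autoImplicit false

namespace Pool.Agent.Results.MP_564742_co.LinkedPentagons

open Finset H76FC H76TX H76TY H76TW Pool.Agent.W315.LB Pool.Agent.U881.HB

theorem result :
    -- (1) no tame linked pentagons
    (∀ (r n m : ℕ) (ends : Fin m → Sym2 (Fin n)), MGraph r ends →
      ¬ Minor starG (SimpleGraph.fromEdgeSet (Set.range ends)) →
      (∀ τ, Tame τ → ¬ Minor (pent τ) (SimpleGraph.fromEdgeSet (Set.range ends))) →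
      ∃ c : Fin m → Fin r, ∀ e e', e ≠ e' → (∃ v, v ∈ ends e ∧ v ∈ ends e') → c e ≠ c e') ∧
    -- (2) sums of order at most three of such graphs and others
    (∀ (r n m : ℕ) (ends : Fin m → Sym2 (Fin n)), MGraph r ends →
      ¬ Minor starG (SimpleGraph.fromEdgeSet (Set.range ends)) →
      Sum3 Piece6 (Fin n) (SimpleGraph.fromEdgeSet (Set.range ends)) →
      ∃ c : Fin m → Fin r, ∀ e e', e ≠ e' → (∃ v, v ∈ ends e ∧ v ∈ ends e') → c e ≠ c e') ∧
    -- (3) smallest counterexamples
    ∀ (V : Type) [Fintype V] [DecidableEq V] (r : ℕ) (p : V → V → ℕ), RGraph r p →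
      ¬ Minor starG (gr p) → ¬ Cover 1 r p →
      (∀ (W : Type) [Fintype W] [DecidableEq W] (q : W → W → ℕ),
        Fintype.card W < Fintype.card V → RGraph r q → ¬ Minor starG (gr q) → Cover 1 r q) →
      NoTight r p ∧ Brick (gr p) ∧ 14 ≤ Fintype.card V ∧ ¬ Sep3 (gr p) ∧
        ∃ τ, Tame τ ∧ Minor (pent τ) (gr p) := by
  have key : ∀ (r n m : ℕ) (ends : Fin m → Sym2 (Fin n)), MGraph r ends →
      ¬ Minor starG (SimpleGraph.fromEdgeSet (Set.range ends)) →
      Sum3 Piece6 (Fin n) (SimpleGraph.fromEdgeSet (Set.range ends)) →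
      ∃ c : Fin m → Fin r, ∀ e e', e ≠ e' → (∃ v, v ∈ ends e ∧ v ∈ ends e') → c e ≠ c e' := by
    intro r n m ends hG hP hS
    obtain ⟨hp, _⟩ := toR r n m ends hG
    refine colouring_of_cover ?_
    rw [coverIff 1 r n m ends hG]
    exact cover_star _ hP hS _ _ rfl r _ hp gr_minor
  refine ⟨?_, key, ?_⟩
  · intro r n m ends hG hP hT
    exact key r n m ends hG hP (Sum3.base _ _ (Or.inl hT))
  · intro V _ _ r p hp hF hno hmin
    obtain ⟨h1, h2, h3, h4⟩ := smallest starG (fun _ _ h => pet_to_star h) hp hF hno hmin
    refine ⟨h1, h2, h3, h4, ?_⟩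
    by_contra hcon
    push Not at hcon
    exact hno (cover_star (gr p) hF (Sum3.base _ _ (Or.inl hcon)) _ V rfl r p hp (minor_refl _))

end Pool.Agent.Results.MP_564742_co.LinkedPentagons
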